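import Mathlib
import Pool.Agent.H282Z.GDefs
import Pool.Agent.H282Z.GDiv

set_option autoImplicit false

open Pool.Agent.H282Z.Gro

namespace Pool.Agent.Results.MP_3ed42e_nt.AGroshevType

/-- Every affine subspace whose defining matrix has Diophantine exponent below `n = d + m` is of
Groshev type, both for convergence and for divergence. -/
theorem result : ∀ d m : ℕ, 1 ≤ d → 1 ≤ m → ∀ A : Matrix (Fin (d + 1)) (Fin m) ℝ,
    omega A < (((d + m : ℕ) : ℝ) : EReal) → GroshevConv A ∧ GroshevDiv A :=
  fun _ _ hd _ A h => groshev hd A h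

end Pool.Agent.Results.MP_3ed42e_nt.AGroshevType
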